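import Pool.Agent.Mg.Fdb8016p.Gf48781

/-! An excited random walk that escapes in one direction with positive probability has a
deterministic asymptotic line. -/

namespace Pool.Agent.Results.MP_db8016_pr.AsymptoticDirection
open MeasureTheory ProbabilityTheory Filter Topology Pool.Agent.MP_db8016_pr.HD

/-- `μ` is the law of the cookie environment on `ℤ^d`: `ω z e i` is the probability of the step
`step e` at the visit number `i + 1` to the site `z`. The stacks are i.i.d. and uniformly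
elliptic. `P₀` is the averaged law of the walk started at the origin, given by its
finite-dimensional distributions. The walk escapes in the direction `l` with positive
probability. -/
theorem result (d : ℕ)
    (μ : Measure ((Fin d → ℤ) → Fin d × Bool → ℕ → ℝ)) [IsProbabilityMeasure μ]
    (hind : iIndepFun (fun (z : Fin d → ℤ) (ω : (Fin d → ℤ) → Fin d × Bool → ℕ → ℝ) => ω z) μ)
    (hid : ∀ z : Fin d → ℤ,
      IdentDistrib (fun ω : (Fin d → ℤ) → Fin d × Bool → ℕ → ℝ => ω z) (fun ω => ω 0) μ μ)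
    (hsum : ∀ᵐ ω ∂μ, ∀ z i, ∑ e, ω z e i = 1)
    (κ : ℝ) (hκ : 0 < κ) (hell : ∀ᵐ ω ∂μ, ∀ z e i, κ ≤ ω z e i)
    (P₀ : Measure (ℕ → Fin d → ℤ)) [IsProbabilityMeasure P₀]
    (hP₀ : ∀ (e : ℕ → Fin d × Bool) (n : ℕ), P₀ {X | ∀ i ≤ n, X i = pos e i} =
      ∫⁻ ω, ENNReal.ofReal (∏ i ∈ Finset.range n, ω (pos e i) (e i) (visits e i)) ∂μ)
    (l : Fin d → ℝ)
    (hl : P₀ {X | Tendsto (fun n => ∑ j, (X n j : ℝ) * l j) atTop atTop} ≠ 0) :
    ∃ v : Fin d → ℝ, ∑ j, v j * l j = 1 ∧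
      ∀ᵐ X ∂P₀, Tendsto (fun n j => (X n j : ℝ) / ∑ i, (X n i : ℝ) * l i) atTop (𝓝 v) := by
  obtain ⟨v, h1, h2⟩ :=
    Pool.Agent.MP_db8016_pr.BZ.dir_thm d μ hind hid hsum κ hκ hell P₀ hP₀ l hl
  exact ⟨v, h1, h2.mono fun X h => tendsto_pi_nhds.2 h.2⟩

end Pool.Agent.Results.MP_db8016_pr.AsymptoticDirection
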