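import Pool.Agent.Mg.Fdb8016p.G5af3df

/-! Zero-one law for directional transience of excited random walks in dimension at least three,
when the largest distance from the origin grows fast enough with positive probability. -/

namespace Pool.Agent.Results.MP_db8016_pr.FastZeroOne
open MeasureTheory ProbabilityTheory Filter Pool.Agent.MP_db8016_pr.HD

/-- `μ` is the law of the cookie environment on `ℤ^d`: `ω z e i` is the probability of the step
`step e` at the visit number `i + 1` to the site `z`. The stacks are i.i.d. and uniformly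
elliptic. `P₀` is the averaged law of the walk started at the origin, given by its
finite-dimensional distributions. With positive probability, for some `v > 0` and all large `n`
the walk has been at distance at least `v * n ^ a` from the origin before the time `n`. -/
theorem result (d : ℕ) (hd : 3 ≤ d)
    (μ : Measure ((Fin d → ℤ) → Fin d × Bool → ℕ → ℝ)) [IsProbabilityMeasure μ]
    (hind : iIndepFun (fun (z : Fin d → ℤ) (ω : (Fin d → ℤ) → Fin d × Bool → ℕ → ℝ) => ω z) μ)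
    (hid : ∀ z : Fin d → ℤ,
      IdentDistrib (fun ω : (Fin d → ℤ) → Fin d × Bool → ℕ → ℝ => ω z) (fun ω => ω 0) μ μ)
    (hsum : ∀ᵐ ω ∂μ, ∀ z i, ∑ e, ω z e i = 1)
    (κ : ℝ) (hκ : 0 < κ) (hell : ∀ᵐ ω ∂μ, ∀ z e i, κ ≤ ω z e i)
    (P₀ : Measure (ℕ → Fin d → ℤ)) [IsProbabilityMeasure P₀]
    (hP₀ : ∀ (e : ℕ → Fin d × Bool) (n : ℕ), P₀ {X | ∀ i ≤ n, X i = pos e i} =
      ∫⁻ ω, ENNReal.ofReal (∏ i ∈ Finset.range n, ω (pos e i) (e i) (visits e i)) ∂μ)
    (a : ℝ) (ha : a = 1 ∨ 4 / ((d : ℝ) + 1) < a)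
    (hrad : P₀ {X | ∃ v : ℝ, 0 < v ∧
      ∀ᶠ n : ℕ in atTop, ∃ k ≤ n, ∃ j, v * (n : ℝ) ^ a ≤ |(X k j : ℝ)|} ≠ 0)
    (l : Fin d → ℝ) :
    P₀ {X | Tendsto (fun n => ∑ j, (X n j : ℝ) * l j) atTop atTop} = 0 ∨
    P₀ {X | Tendsto (fun n => ∑ j, (X n j : ℝ) * l j) atTop atTop} = 1 :=
  Pool.Agent.MP_db8016_pr.BZ.rad_all d hd μ hind hid hsum κ hκ hell P₀ hP₀ a ha hrad l

end Pool.Agent.Results.MP_db8016_pr.FastZeroOne
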