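import Pool.Agent.Mg.Fdb8016p.G8a8b94

/-! Zero-one law for directional transience of excited random walks, when the expected
displacement accumulated at a site lies in a half-space whatever the rule that stops the visits. -/

namespace Pool.Agent.Results.MP_db8016_pr.HalfSpaceZeroOne
open MeasureTheory ProbabilityTheory Filter Pool.Agent.MP_db8016_pr.HD

/-- `μ` is the law of the cookie environment on `ℤ^d`: `ω z e i` is the probability of the step
`step e` at the visit number `i + 1` to the site `z`. The stacks are i.i.d. and uniformly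
elliptic. `P₀` is the averaged law of the walk started at the origin, given by its
finite-dimensional distributions. For a word `w` of steps, `a w` is the averaged probability that
the first exits from a site are `w`, times the drift along `m` at the next visit. It is
non-negative for long words (it vanishes there if the number of cookies is bounded), and its sum
over every finite set of words that is closed under removal of the last letter is non-negative. -/
theorem result (d : ℕ) (hd : 2 ≤ d)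
    (μ : Measure ((Fin d → ℤ) → Fin d × Bool → ℕ → ℝ)) [IsProbabilityMeasure μ]
    (hind : iIndepFun (fun (z : Fin d → ℤ) (ω : (Fin d → ℤ) → Fin d × Bool → ℕ → ℝ) => ω z) μ)
    (hid : ∀ z : Fin d → ℤ,
      IdentDistrib (fun ω : (Fin d → ℤ) → Fin d × Bool → ℕ → ℝ => ω z) (fun ω => ω 0) μ μ)
    (hsum : ∀ᵐ ω ∂μ, ∀ z i, ∑ e, ω z e i = 1)
    (κ : ℝ) (hκ : 0 < κ) (hell : ∀ᵐ ω ∂μ, ∀ z e i, κ ≤ ω z e i)
    (P₀ : Measure (ℕ → Fin d → ℤ)) [IsProbabilityMeasure P₀]
    (hP₀ : ∀ (e : ℕ → Fin d × Bool) (n : ℕ), P₀ {X | ∀ i ≤ n, X i = pos e i} =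
      ∫⁻ ω, ENNReal.ofReal (∏ i ∈ Finset.range n, ω (pos e i) (e i) (visits e i)) ∂μ)
    (m : Fin d → ℝ) (hm : m ≠ 0) (a : List (Fin d × Bool) → ℝ)
    (ha : ∀ w, a w = ∫ ω, (∏ j : Fin w.length, ω 0 (w.get j) j) *
      ∑ s, ω 0 s w.length * ∑ k, (step s k : ℝ) * m k ∂μ)
    (M : ℕ) (hM : ∀ w, M ≤ w.length → 0 ≤ a w)
    (hB : ∀ B : Finset (List (Fin d × Bool)), (∀ w s, w ++ [s] ∈ B → w ∈ B) → 0 ≤ ∑ w ∈ B, a w)
    (h8 : 8 ≤ d ∨ ∃ w, a w ≠ 0)
    (l : Fin d → ℝ) :
    P₀ {X | Tendsto (fun n => ∑ j, (X n j : ℝ) * l j) atTop atTop} = 0 ∨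
    P₀ {X | Tendsto (fun n => ∑ j, (X n j : ℝ) * l j) atTop atTop} = 1 :=
  Pool.Agent.MP_db8016_pr.BZ.hs_all d hd μ hind hid hsum κ hκ hell P₀ hP₀ m hm a ha M hM hB h8 l

end Pool.Agent.Results.MP_db8016_pr.HalfSpaceZeroOne
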