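import Pool.Agent.Mg.Fdb8016a.Ge5f374
import Pool.Agent.Mg.Fdb8016a.G6ef5a8

/-! Zero-one law for directional transience of excited random walks in dimension two. -/

namespace Pool.Agent.Results.MP_db8016_pr.PlanarZeroOne
open MeasureTheory ProbabilityTheory Filter Pool.Agent.MP_db8016_pr

/-- `μ` is the law of the cookie environment on `ℤ²`: `ω z e i` is the probability of the step
`step e` at the visit number `i + 1` to the site `z`. The stacks are i.i.d. and uniformly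
elliptic. `P₀` is the averaged law of the walk started at the origin, given by its
finite-dimensional distributions. -/
theorem result
    (μ : Measure (ℤ × ℤ → Fin 4 → ℕ → ℝ)) [IsProbabilityMeasure μ]
    (hind : iIndepFun (fun (z : ℤ × ℤ) (ω : ℤ × ℤ → Fin 4 → ℕ → ℝ) => ω z) μ)
    (hid : ∀ z : ℤ × ℤ, IdentDistrib (fun ω : ℤ × ℤ → Fin 4 → ℕ → ℝ => ω z) (fun ω => ω 0) μ μ)
    (hsum : ∀ᵐ ω ∂μ, ∀ z i, ∑ e, ω z e i = 1)
    (κ : ℝ) (hκ : 0 < κ) (hell : ∀ᵐ ω ∂μ, ∀ z e i, κ ≤ ω z e i)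
    (P₀ : Measure (ℕ → ℤ × ℤ)) [IsProbabilityMeasure P₀]
    (hP₀ : ∀ (e : ℕ → Fin 4) (n : ℕ), P₀ {X | ∀ i ≤ n, X i = pos e i} =
      ∫⁻ ω, ENNReal.ofReal (∏ i ∈ Finset.range n, ω (pos e i) (e i) (visits e i)) ∂μ)
    (l : ℝ × ℝ) (hl : l ≠ 0) :
    P₀ {X | Tendsto (fun n => ((X n).1 : ℝ) * l.1 + ((X n).2 : ℝ) * l.2) atTop atTop} = 0 ∨
    P₀ {X | Tendsto (fun n => ((X n).1 : ℝ) * l.1 + ((X n).2 : ℝ) * l.2) atTop atTop} = 1 :=
  result_of_core core μ hind hid hsum κ hκ hell P₀ hP₀ l hl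

end Pool.Agent.Results.MP_db8016_pr.PlanarZeroOne
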